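import Pool.Agent.N805.VP.Base

/-!
# VP/BON (helper861 for helper805): inclusion-exclusion (Bonferroni) inequalities
-/

set_option autoImplicit false

open MeasureTheory Set Filter Topology

namespace Pool.Agent.N861.VP

open Pool.Agent.N805.VP

/-- the partial sums of the binomial expansion of `(1 - z) ^ N` -/
noncomputable def ps (z : ℝ) (K N : ℕ) : ℝ :=
  ∑ k ∈ Finset.range (K + 1), (-z) ^ k * (N.choose k : ℝ)

lemma ps_zero (z : ℝ) (K : ℕ) : ps z K 0 = 1 := by
  unfold ps
  rw [Finset.sum_eq_single 0]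
  · simp
  · intro k _ hk
    rw [Nat.choose_eq_zero_of_lt (Nat.pos_of_ne_zero hk)]
    simp
  · intro h
    exact (h (Finset.mem_range.2 (Nat.succ_pos K))).elim

lemma ps_succ (z : ℝ) (K N : ℕ) :
    ps z K (N + 1) = (1 - z) * ps z K N + z * ((-z) ^ K * (N.choose K : ℝ)) := by
  induction K with
  | zero => simp [ps]
  | succ K ih =>
    have h1 : ∀ M, ps z (K + 1) M = ps z K M + (-z) ^ (K + 1) * (M.choose (K + 1) : ℝ) := by
      intro M
      unfold ps
      rw [Finset.sum_range_succ]
    rw [h1, h1, ih, Nat.choose_succ_succ]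
    push_cast
    ring

/-- Bonferroni's inequalities -/
lemma bonf {z : ℝ} (h0 : 0 ≤ z) (h1 : z ≤ 1) (K N : ℕ) :
    0 ≤ (-1) ^ (K + 1) * ((1 - z) ^ N - ps z K N) := by
  induction N with
  | zero => rw [ps_zero]; simp
  | succ N ih =>
    have e : (-1 : ℝ) ^ (K + 1) * ((1 - z) ^ (N + 1) - ps z K (N + 1)) =
        (1 - z) * ((-1) ^ (K + 1) * ((1 - z) ^ N - ps z K N)) +
          z ^ (K + 1) * (N.choose K : ℝ) := by
      have h2 : (-1 : ℝ) ^ (K + 1) * (-z) ^ K = - z ^ K := by
        rw [pow_succ, neg_pow z K]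
        have : (-1 : ℝ) ^ K * (-1) ^ K = 1 := by
          rw [← mul_pow]; simp
        linear_combination (-z ^ K) * this
      rw [ps_succ]
      linear_combination (-(z * (N.choose K : ℝ))) * h2
    rw [e]
    have : 0 ≤ 1 - z := by linarith
    positivity

lemma sum_eq_ps (z : ℝ) (K N : ℕ) :
    -∑ k ∈ Finset.range K, (-z) ^ (k + 1) * (N.choose (k + 1) : ℝ) = 1 - ps z K N := by
  unfold ps
  rw [Finset.sum_range_succ']
  simp

theorem BON : S_BON := by
  intro J x W hW hb
  have hbk : ∀ k : ℕ, ∃ b : ℝ, ∀ _ : Fin (k + 1), W ⊆ Icc (-b) b := by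
    obtain ⟨b, hb⟩ := hb
    exact fun k => ⟨b, fun _ => hb⟩
  refine ⟨?_, ?_⟩
  · intro z hz0 hz1 K
    have hint : Integrable fun t => (1 - (1 - z) ^ cnt J x W t) :=
      int_cnt hW hb (fun n => 1 - (1 - z) ^ n) (by simp)
    have hik : ∀ k ∈ Finset.range K, Integrable fun t =>
        (-z) ^ (k + 1) / ((k + 1).factorial : ℝ) *
          ((tup J x (fun _ : Fin (k + 1) => W) t).card : ℝ) := by
      intro k _
      exact (int_tup (by omega) (fun _ => hW) (hbk k)).const_mul _
    have hR : -∑ k ∈ Finset.range K,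
        (-z) ^ (k + 1) / ((k + 1).factorial : ℝ) * mom J x (fun _ : Fin (k + 1) => W) =
        ∫ t, -∑ k ∈ Finset.range K, (-z) ^ (k + 1) / ((k + 1).factorial : ℝ) *
          ((tup J x (fun _ : Fin (k + 1) => W) t).card : ℝ) := by
      rw [integral_neg, integral_finset_sum _ hik]
      congr 1
      refine Finset.sum_congr rfl fun k _ => ?_
      rw [integral_const_mul]
      rfl
    have hRi : Integrable fun t => -∑ k ∈ Finset.range K,
        (-z) ^ (k + 1) / ((k + 1).factorial : ℝ) *
          ((tup J x (fun _ : Fin (k + 1) => W) t).card : ℝ) :=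
      (integrable_finset_sum _ hik).neg
    have hpt : ∀ t, -∑ k ∈ Finset.range K, (-z) ^ (k + 1) / ((k + 1).factorial : ℝ) *
          ((tup J x (fun _ : Fin (k + 1) => W) t).card : ℝ) = 1 - ps z K (cnt J x W t) := by
      intro t
      rw [← sum_eq_ps]
      congr 1
      refine Finset.sum_congr rfl fun k _ => ?_
      rw [tup_const, Nat.descFactorial_eq_factorial_mul_choose]
      push_cast
      have : ((k + 1).factorial : ℝ) ≠ 0 := by positivity
      field_simp
    rw [hR]
    constructor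
    · intro hK
      refine integral_mono hint hRi fun t => ?_
      have h1 := bonf hz0 hz1 K (cnt J x W t)
      have h2 : (-1 : ℝ) ^ (K + 1) = 1 := (hK.add_one).neg_one_pow
      rw [h2, one_mul] at h1
      show 1 - (1 - z) ^ cnt J x W t ≤ -∑ k ∈ Finset.range K, (-z) ^ (k + 1) / ((k + 1).factorial : ℝ) *
          ((tup J x (fun _ : Fin (k + 1) => W) t).card : ℝ)
      rw [hpt t]
      linarith
    · intro hK
      refine integral_mono hRi hint fun t => ?_
      have h1 := bonf hz0 hz1 K (cnt J x W t)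
      have h2 : (-1 : ℝ) ^ (K + 1) = -1 := (hK.add_one).neg_one_pow
      rw [h2] at h1
      show -∑ k ∈ Finset.range K, (-z) ^ (k + 1) / ((k + 1).factorial : ℝ) *
          ((tup J x (fun _ : Fin (k + 1) => W) t).card : ℝ) ≤ 1 - (1 - z) ^ cnt J x W t
      rw [hpt t]
      linarith
  · have hm : MeasurableSet {t : ℝ | ∃ n ∈ J, x n - t ∈ W} := by
      have : {t : ℝ | ∃ n ∈ J, x n - t ∈ W} = ⋃ n ∈ J, {t : ℝ | x n - t ∈ W} := by
        ext t
        simp
      rw [this]
      exact Finset.measurableSet_biUnion _ fun n _ => meas_pt hW n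
    have h1 : (fun t => (1 - (1 - 1 : ℝ) ^ cnt J x W t)) =
        {t : ℝ | ∃ n ∈ J, x n - t ∈ W}.indicator (fun _ => (1 : ℝ)) := by
      funext t
      by_cases ht : ∃ n ∈ J, x n - t ∈ W
      · rw [indicator_of_mem (by exact ht), sub_self, zero_pow (cnt_pos.2 ht).ne', sub_zero]
      · have h2 : cnt J x W t = 0 := by
          by_contra h
          exact ht (cnt_pos.1 (Nat.pos_of_ne_zero h))
        rw [indicator_of_notMem (by exact ht), h2, pow_zero, sub_self]
    rw [h1, integral_indicator hm, setIntegral_const, smul_eq_mul, mul_one]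
    rfl

end Pool.Agent.N861.VP
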